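import Mathlib

set_option autoImplicit false

open TopologicalSpace Set
open scoped Cardinal Ordinal symmDiff

namespace Pool.Agent.Results.MP_0eabd7_lc.OmegaOneExists

/-!
# MP_0eabd7, Question 1: yes.

There is a Boolean algebra `B` with property (P) (every uncountable quotient of `B` is isomorphic
to `B`) whose cardinal sequence is `⟨ℵ₁, ℵ₁, …, 1⟩` of length `ω₁`.  The algebra is the algebra of
clopen subsets of the ordinal space `[0, ω₁]`.

A Boolean algebra `B` is handled through its Boolean ring `AsBoolRing B` (same elements, `x * y` is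
the meet, `x + y` the symmetric difference): its ring ideals are exactly the ideals of the Boolean
algebra, and the ring quotient is the quotient Boolean algebra.
-/

universe u

/-! ## The definitions used in the statement -/

/-- The atoms of a Boolean ring: nonzero elements `a` with `x ∧ a = 0` or `x ∧ a = a` for all `x`. -/
def atoms (R : Type u) [CommRing R] : Set R := {a | a ≠ 0 ∧ ∀ x : R, x * a = 0 ∨ x * a = a}

/-- The next Cantor–Bendixson ideal: all `b` such that `b / I` is in the ideal of `R / I`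
generated by the atoms of `R / I`, that is, such that `b / I` is a finite join of atoms
(see `mem_nextIdeal_iff_finite_join` below). -/
def nextIdeal {R : Type u} [CommRing R] (I : Ideal R) : Ideal R :=
  (Ideal.span (atoms (R ⧸ I))).comap (Ideal.Quotient.mk I)

/-- The Cantor–Bendixson ideals `I_β`: `I_0 = 0`, `I_{β+1} = nextIdeal I_β`, and
`I_λ = ⋃_{γ<λ} I_γ` (supremum of ideals) for limit `λ`. -/
noncomputable def cbIdeal (R : Type u) [CommRing R] (β : Ordinal.{0}) : Ideal R :=
  Ordinal.limitRecOn β ⊥ (fun _ I => nextIdeal I) (fun β _ ih => ⨆ γ : Set.Iio β, ih γ.1 γ.2)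

/-- Property (P): `B / J ≅ B` for every ideal `J` such that `B / J` is uncountable. -/
def PropertyP (B : Type u) [BooleanAlgebra B] : Prop :=
  ∀ J : Ideal (AsBoolRing B), Uncountable (AsBoolRing B ⧸ J) →
    Nonempty ((AsBoolRing B ⧸ J) ≃+* AsBoolRing B)

/-- `B` is superatomic, `δ` is the least ordinal with `B / I_δ` finite, `B / I_β` has exactly `κ`
atoms for each `β < δ`, and `B / I_δ` has exactly one atom: the cardinal sequence of `B` is
`⟨κ, κ, …, 1⟩` of length `δ`. -/
structure HasCardinalSequence (B : Type u) [BooleanAlgebra B] (κ : Cardinal.{u})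
    (δ : Ordinal.{0}) : Prop where
  superatomic : ∃ β, cbIdeal (AsBoolRing B) β = ⊤
  finite_top : Finite (AsBoolRing B ⧸ cbIdeal (AsBoolRing B) δ)
  infinite_below : ∀ β < δ, Infinite (AsBoolRing B ⧸ cbIdeal (AsBoolRing B) β)
  card_below : ∀ β < δ, #(atoms (AsBoolRing B ⧸ cbIdeal (AsBoolRing B) β)) = κ
  card_top : #(atoms (AsBoolRing B ⧸ cbIdeal (AsBoolRing B) δ)) = 1

/-! ## Sanity check: `nextIdeal` consists of the elements that are finite joins of atoms mod `I`
(the sum of finitely many distinct atoms of a Boolean ring is their join, as distinct atoms are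
disjoint) -/

theorem atoms_disjoint {R : Type u} [CommRing R] {a b : R} (ha : a ∈ atoms R) (hb : b ∈ atoms R)
    (hab : a ≠ b) : a * b = 0 := by
  rcases hb.2 a with h | h
  · exact h
  · rcases ha.2 b with h' | h'
    · rw [mul_comm]; exact h'
    · exact absurd (h'.symm.trans ((mul_comm b a).trans h)) hab

theorem mem_nextIdeal_iff_finite_join {R : Type u} [BooleanRing R] (I : Ideal R) (b : R) :
    b ∈ nextIdeal I ↔ ∃ s : Finset (R ⧸ I), (∀ a ∈ s, a ∈ atoms (R ⧸ I)) ∧
      Ideal.Quotient.mk I b = ∑ a ∈ s, a := by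
  classical
  have hchar : ∀ z : R ⧸ I, z + z = 0 := by
    intro z
    obtain ⟨z, rfl⟩ := Ideal.Quotient.mk_surjective z
    rw [← map_add, BooleanRing.add_self, map_zero]
  change Ideal.Quotient.mk I b ∈ Ideal.span (atoms (R ⧸ I)) ↔ _
  constructor
  · intro hb
    have key : ∀ z ∈ Ideal.span (atoms (R ⧸ I)), ∃ s : Finset (R ⧸ I),
        (∀ a ∈ s, a ∈ atoms (R ⧸ I)) ∧ z = ∑ a ∈ s, a := by
      intro z hz
      induction hz using Submodule.span_induction with
      | mem z hz => exact ⟨{z}, by simpa using hz, by simp⟩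
      | zero => exact ⟨∅, by simp, by simp⟩
      | add z w _ _ ihz ihw =>
        obtain ⟨s, hs, rfl⟩ := ihz
        obtain ⟨t, ht, rfl⟩ := ihw
        refine ⟨(s \ t) ∪ (t \ s), ?_, ?_⟩
        · intro a ha
          rcases Finset.mem_union.1 ha with h | h
          · exact hs a (Finset.mem_sdiff.1 h).1
          · exact ht a (Finset.mem_sdiff.1 h).1
        · rw [Finset.sum_union (by
            rw [Finset.disjoint_left]
            intro a h1 h2
            exact (Finset.mem_sdiff.1 h1).2 (Finset.mem_sdiff.1 h2).1)]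
          have h1 := Finset.sum_inter_add_sum_sdiff s t (fun a : R ⧸ I => a)
          have h2 := Finset.sum_inter_add_sum_sdiff t s (fun a : R ⧸ I => a)
          rw [Finset.inter_comm t s] at h2
          have h3 := hchar (∑ a ∈ s ∩ t, a)
          linear_combination h3 - h1 - h2
      | smul r z _ ihz =>
        obtain ⟨s, hs, rfl⟩ := ihz
        refine ⟨s.filter (fun a => r * a = a), fun a ha => hs a (Finset.mem_filter.1 ha).1, ?_⟩
        rw [smul_eq_mul, Finset.mul_sum, Finset.sum_filter]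
        apply Finset.sum_congr rfl
        intro a ha
        split_ifs with h
        · exact h
        · rcases (hs a ha).2 r with h' | h'
          · exact h'
          · exact absurd h' h
    exact key _ hb
  · rintro ⟨s, hs, h⟩
    rw [h]
    exact Submodule.sum_mem _ fun a ha => Ideal.subset_span (hs a ha)

/-! ## Stone duality for clopen algebras -/

section Stone

variable {X : Type u} [TopologicalSpace X]

abbrev CR (X : Type u) [TopologicalSpace X] := AsBoolRing (Clopens X)

def mem (x : X) (a : CR X) : Prop := x ∈ (ofBoolRing a : Clopens X)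

lemma mem_mul (x : X) (a b : CR X) : mem x (a * b) ↔ mem x a ∧ mem x b := by
  rw [mem, mem, mem, ofBoolRing_mul]; exact Iff.rfl

lemma mem_add (x : X) (a b : CR X) : mem x (a + b) ↔ ¬ (mem x a ↔ mem x b) := by
  simp only [mem, ofBoolRing_add]
  have : x ∈ (ofBoolRing a ∆ ofBoolRing b : Clopens X) ↔
      (x ∈ ofBoolRing a ∧ x ∉ ofBoolRing b) ∨ (x ∈ ofBoolRing b ∧ x ∉ ofBoolRing a) := by
    rw [symmDiff]
    exact Iff.rfl
  rw [this]; tauto

lemma mem_zero (x : X) : ¬ mem x (0 : CR X) := by
  rw [mem, ofBoolRing_zero]; exact id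

lemma mem_one (x : X) : mem x (1 : CR X) := by
  rw [mem, ofBoolRing_one]; trivial

lemma ext' {a b : CR X} (h : ∀ x, mem x a ↔ mem x b) : a = b := by
  apply ofBoolRing.injective
  ext x
  exact h x

/-- clopen set to element of ring -/
def mkC (s : Set X) (hs : IsClopen s) : CR X := toBoolRing (⟨s, hs⟩ : Clopens X)

@[simp] lemma mem_mkC (x : X) (s : Set X) (hs : IsClopen s) : mem x (mkC s hs) ↔ x ∈ s := Iff.rfl

lemma isClopen_mem (a : CR X) : IsClopen {x | mem x a} := (ofBoolRing a : Clopens X).isClopen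

def pt (x : X) : Ideal (CR X) where
  carrier := {a | ¬ mem x a}
  zero_mem' := mem_zero x
  add_mem' := by
    intro a b ha hb
    simp only [mem_ofPred_eq, mem_add] at *
    tauto
  smul_mem' := by
    intro c a ha
    simp only [mem_ofPred_eq, smul_eq_mul, mem_mul] at *
    tauto

def V (I : Ideal (CR X)) : Set X := {x | ∀ a ∈ I, ¬ mem x a}

lemma mem_V_iff {I : Ideal (CR X)} {x : X} : x ∈ V I ↔ I ≤ pt x := Iff.rfl

lemma isClosed_V (I : Ideal (CR X)) : IsClosed (V I) := by
  have : V I = ⋂ a ∈ I, {x | mem x a}ᶜ := by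
    ext x; simp [V]
  rw [this]
  exact isClosed_biInter fun a _ => (isClopen_mem a).compl.isClosed

lemma V_iSup {ι : Sort*} (I : ι → Ideal (CR X)) : V (⨆ i, I i) = ⋂ i, V (I i) := by
  ext x
  simp only [mem_V_iff, iSup_le_iff, mem_iInter]

lemma V_bot : V (⊥ : Ideal (CR X)) = univ := by
  ext x
  simp [mem_V_iff]

lemma mem_ideal_iff [CompactSpace X] {I : Ideal (CR X)} {a : CR X} :
    a ∈ I ↔ ∀ x ∈ V I, ¬ mem x a := by
  constructor
  · intro ha x hx
    exact hx a ha
  · intro h
    have hK : IsCompact {x | mem x a} := (isClopen_mem a).isClosed.isCompact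
    have key : ∃ c ∈ I, ∀ x ∈ {x | mem x a}, mem x c := by
      refine hK.induction_on (p := fun s => ∃ c ∈ I, ∀ x ∈ s, mem x c) ?_ ?_ ?_ ?_
      · exact ⟨0, I.zero_mem, by simp⟩
      · rintro s t hst ⟨c, hc, h2⟩
        exact ⟨c, hc, fun x hx => h2 x (hst hx)⟩
      · rintro s t ⟨c, hc, h2⟩ ⟨d, hd, h3⟩
        refine ⟨c + d + c * d, I.add_mem (I.add_mem hc hd) (I.mul_mem_left _ hd), ?_⟩
        intro x hx
        rw [mem_add, mem_add, mem_mul]
        rcases hx with hx | hx
        · have := h2 x hx; tauto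
        · have := h3 x hx; tauto
      · intro x hx
        have : x ∉ V I := fun h' => h x h' hx
        simp only [V, mem_ofPred_eq, not_forall, not_not] at this
        obtain ⟨c, hc, hxc⟩ := this
        refine ⟨{y | mem y c}, mem_nhdsWithin_of_mem_nhds ((isClopen_mem c).isOpen.mem_nhds hxc),
          c, hc, fun y hy => hy⟩
    obtain ⟨c, hc, h2⟩ := key
    have : a = a * c := by
      apply ext'
      intro x
      rw [mem_mul]
      exact ⟨fun hx => ⟨hx, h2 x hx⟩, fun hx => hx.1⟩
    rw [this]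
    exact I.mul_mem_left _ hc

lemma sub_eq_add' (a b : CR X) : a - b = a + b := BooleanRing.sub_eq_add a b

lemma mk_eq_mk_iff [CompactSpace X] {I : Ideal (CR X)} {a b : CR X} :
    Ideal.Quotient.mk I a = Ideal.Quotient.mk I b ↔ ∀ x ∈ V I, (mem x a ↔ mem x b) := by
  rw [Ideal.Quotient.eq, sub_eq_add', mem_ideal_iff]
  apply forall₂_congr
  intro x _
  rw [mem_add, not_not]

/-- `x` is isolated in `K` by a clopen set -/
def Iso (K : Set X) (x : X) : Prop := ∃ a : CR X, ∀ y ∈ K, (mem y a ↔ y = x)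

def der (K : Set X) : Set X := {x ∈ K | ¬ Iso K x}

lemma exists_sep [CompactSpace X] [T2Space X] [TotallyDisconnectedSpace X] {x y : X} (h : x ≠ y) :
    ∃ a : CR X, mem x a ∧ ¬ mem y a := by
  obtain ⟨U, hU, hx, hy⟩ := exists_isClopen_of_totally_separated h
  exact ⟨mkC U hU, hx, hy⟩

lemma mk_mem_atoms_iff [CompactSpace X] [T2Space X] [TotallyDisconnectedSpace X]
    {I : Ideal (CR X)} {a : CR X} :
    Ideal.Quotient.mk I a ∈ atoms (CR X ⧸ I) ↔ ∃ x ∈ V I, ∀ y ∈ V I, (mem y a ↔ y = x) := by
  constructor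
  · rintro ⟨h0, h1⟩
    have : ∃ x ∈ V I, mem x a := by
      by_contra hcon
      push Not at hcon
      apply h0
      rw [← map_zero (Ideal.Quotient.mk I), mk_eq_mk_iff]
      intro x hx
      exact iff_of_false (hcon x hx) (mem_zero x)
    obtain ⟨x, hxV, hxa⟩ := this
    refine ⟨x, hxV, fun y hy => ⟨fun hya => ?_, fun h => h ▸ hxa⟩⟩
    by_contra hne
    obtain ⟨b, hyb, hxb⟩ := exists_sep hne
    rcases h1 (Ideal.Quotient.mk I b) with h | h
    · rw [← map_mul, ← map_zero (Ideal.Quotient.mk I), mk_eq_mk_iff] at h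
      have := (h y hy).1 ((mem_mul _ _ _).2 ⟨hyb, hya⟩)
      exact mem_zero _ this
    · rw [← map_mul, mk_eq_mk_iff] at h
      have := (h x hxV).2 hxa
      rw [mem_mul] at this
      exact hxb this.1
  · rintro ⟨x, hxV, hx⟩
    constructor
    · intro h
      rw [← map_zero (Ideal.Quotient.mk I), mk_eq_mk_iff] at h
      exact mem_zero x ((h x hxV).1 ((hx x hxV).2 rfl))
    · intro b
      obtain ⟨b, rfl⟩ := Ideal.Quotient.mk_surjective b
      by_cases hxb : mem x b
      · right
        rw [← map_mul, mk_eq_mk_iff]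
        intro y hy
        rw [mem_mul]
        constructor
        · exact fun h => h.2
        · intro h
          have := (hx y hy).1 h
          subst this
          exact ⟨hxb, h⟩
      · left
        rw [← map_mul, ← map_zero (Ideal.Quotient.mk I), mk_eq_mk_iff]
        intro y hy
        rw [mem_mul]
        refine iff_of_false ?_ (mem_zero y)
        rintro ⟨h1, h2⟩
        have := (hx y hy).1 h2
        subst this
        exact hxb h1

lemma mem_nextIdeal_iff [CompactSpace X] [T2Space X] [TotallyDisconnectedSpace X]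
    {I : Ideal (CR X)} {b : CR X} :
    b ∈ nextIdeal I ↔ ∀ x ∈ V I, mem x b → Iso (V I) x := by
  constructor
  · intro hb
    have hb' : Ideal.Quotient.mk I b ∈ Ideal.span (atoms (CR X ⧸ I)) := hb
    have key : ∀ z ∈ Ideal.span (atoms (CR X ⧸ I)), ∀ c, Ideal.Quotient.mk I c = z →
        ∀ x ∈ V I, mem x c → Iso (V I) x := by
      intro z hz
      induction hz using Submodule.span_induction with
      | mem z hz =>
        rintro c rfl x hx hxc
        obtain ⟨y, hy, h2⟩ := mk_mem_atoms_iff.1 hz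
        have : x = y := (h2 x hx).1 hxc
        subst this
        exact ⟨c, h2⟩
      | zero =>
        rintro c hc x hx hxc
        rw [← map_zero (Ideal.Quotient.mk I), mk_eq_mk_iff] at hc
        exact absurd ((hc x hx).1 hxc) (mem_zero x)
      | add z w _ _ ihz ihw =>
        rintro c hc x hx hxc
        obtain ⟨z, rfl⟩ := Ideal.Quotient.mk_surjective z
        obtain ⟨w, rfl⟩ := Ideal.Quotient.mk_surjective w
        rw [← map_add, mk_eq_mk_iff] at hc
        have := (hc x hx).1 hxc
        rw [mem_add] at this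
        by_cases h : mem x z
        · exact ihz z rfl x hx h
        · exact ihw w rfl x hx (by tauto)
      | smul r z _ ihz =>
        rintro c hc x hx hxc
        obtain ⟨z, rfl⟩ := Ideal.Quotient.mk_surjective z
        obtain ⟨r, rfl⟩ := Ideal.Quotient.mk_surjective r
        rw [smul_eq_mul, ← map_mul, mk_eq_mk_iff] at hc
        have := (hc x hx).1 hxc
        rw [mem_mul] at this
        exact ihz z rfl x hx this.2
    exact key _ hb' b rfl
  · intro h
    have hK : IsCompact (V I ∩ {x | mem x b}) :=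
      ((isClosed_V I).inter (isClopen_mem b).isClosed).isCompact
    have key : ∃ c ∈ nextIdeal I, ∀ x ∈ V I ∩ {x | mem x b}, x ∈ V I → mem x c := by
      refine hK.induction_on (p := fun s => ∃ c ∈ nextIdeal I, ∀ x ∈ s, x ∈ V I → mem x c)
        ?_ ?_ ?_ ?_
      · exact ⟨0, Ideal.zero_mem _, by simp⟩
      · rintro s t hst ⟨c, hc, h2⟩
        exact ⟨c, hc, fun x hx => h2 x (hst hx)⟩
      · rintro s t ⟨c, hc, h2⟩ ⟨d, hd, h3⟩
        refine ⟨c + d + c * d, Ideal.add_mem _ (Ideal.add_mem _ hc hd)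
          (Ideal.mul_mem_left _ _ hd), ?_⟩
        intro x hx hxV
        rw [mem_add, mem_add, mem_mul]
        rcases hx with hx | hx
        · have := h2 x hx hxV; tauto
        · have := h3 x hx hxV; tauto
      · rintro x ⟨hxV, hxb⟩
        obtain ⟨a, ha⟩ := h x hxV hxb
        refine ⟨{y | mem y a}, mem_nhdsWithin_of_mem_nhds ((isClopen_mem a).isOpen.mem_nhds
          ((ha x hxV).2 rfl)), a, ?_, fun y hy _ => hy⟩
        exact Ideal.subset_span (mk_mem_atoms_iff.2 ⟨x, hxV, ha⟩)
    obtain ⟨c, hc, h2⟩ := key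
    have h3 : Ideal.Quotient.mk I b = Ideal.Quotient.mk I (b * c) := by
      rw [mk_eq_mk_iff]
      intro x hx
      rw [mem_mul]
      exact ⟨fun hb => ⟨hb, h2 x ⟨hx, hb⟩ hx⟩, fun h => h.1⟩
    change Ideal.Quotient.mk I b ∈ Ideal.span _
    rw [h3]
    exact (nextIdeal I).mul_mem_left b hc

lemma V_nextIdeal [CompactSpace X] [T2Space X] [TotallyDisconnectedSpace X]
    (I : Ideal (CR X)) : V (nextIdeal I) = der (V I) := by
  ext x
  constructor
  · intro hx
    have hxI : x ∈ V I := by
      intro a ha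
      apply hx
      rw [mem_nextIdeal_iff]
      intro y hy hya
      exact absurd hya (hy a ha)
    refine ⟨hxI, ?_⟩
    rintro ⟨a, ha⟩
    apply hx a _ ((ha x hxI).2 rfl)
    rw [mem_nextIdeal_iff]
    intro y hy hya
    have := (ha y hy).1 hya
    subst this
    exact ⟨a, ha⟩
  · rintro ⟨hx1, hx2⟩ a ha hxa
    rw [mem_nextIdeal_iff] at ha
    exact hx2 (ha x hx1 hxa)

end Stone

section Maps

variable {X Y : Type u} [TopologicalSpace X] [TopologicalSpace Y]

/-- pull back of clopen sets along a continuous map -/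
def comapHom (f : X → Y) (hf : Continuous f) : CR Y →+* CR X where
  toFun a := mkC (f ⁻¹' {y | mem y a}) ((isClopen_mem a).preimage hf)
  map_one' := ext' fun x => by simp [mem_one]
  map_zero' := ext' fun x => by simp [mem_zero]
  map_mul' a b := ext' fun x => by simp [mem_mul]
  map_add' a b := ext' fun x => by simp [mem_add]

lemma mem_comapHom (f : X → Y) (hf : Continuous f) (a : CR Y) (x : X) :
    mem x (comapHom f hf a) ↔ mem (f x) a := Iff.rfl

/-- homeomorphic spaces have isomorphic clopen algebras -/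
def congrHomeo (h : X ≃ₜ Y) : CR Y ≃+* CR X :=
  RingEquiv.ofRingHom (comapHom h h.continuous) (comapHom h.symm h.symm.continuous)
    (by ext a : 1; exact ext' fun x => by simp [mem_comapHom])
    (by ext a : 1; exact ext' fun x => by simp [mem_comapHom])

lemma comapHom_surjective [CompactSpace X] [T2Space X] [TotallyDisconnectedSpace X]
    (K : Set X) (hK : IsClosed K) :
    Function.Surjective (comapHom (Subtype.val : K → X) continuous_subtype_val) := by
  intro u
  have hc := isClopen_mem u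
  have h1 : IsClosed (Subtype.val '' {x : K | mem x u}) :=
    hK.isClosedEmbedding_subtypeVal.isClosedMap _ hc.isClosed
  have h2 : IsClosed (Subtype.val '' {x : K | ¬ mem x u}) :=
    hK.isClosedEmbedding_subtypeVal.isClosedMap _ hc.compl.isClosed
  obtain ⟨C, hC, hZC, hCU⟩ := exists_clopen_of_closed_subset_open h1 h2.isOpen_compl (by
    rintro _ ⟨x, hx, rfl⟩ ⟨y, hy, hxy⟩
    have := Subtype.val_injective hxy
    subst this
    exact hy hx)
  refine ⟨mkC C hC, ext' fun x => ?_⟩
  rw [mem_comapHom, mem_mkC]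
  constructor
  · intro h
    by_contra hcon
    exact hCU h ⟨x, hcon, rfl⟩
  · intro h
    exact hZC ⟨x, h, rfl⟩

noncomputable def quotEquiv [CompactSpace X] [T2Space X] [TotallyDisconnectedSpace X]
    (I : Ideal (CR X)) : (CR X ⧸ I) ≃+* CR (V I) :=
  (Ideal.quotEquivOfEq (by
    ext a
    rw [RingHom.mem_ker, mem_ideal_iff]
    constructor
    · intro h
      exact ext' fun x => iff_of_false (h x.1 x.2) (mem_zero x)
    · intro h x hx hxa
      have : mem (⟨x, hx⟩ : V I) (comapHom (Subtype.val : V I → X) continuous_subtype_val a) := hxa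
      rw [h] at this
      exact mem_zero _ this)).trans
    (RingHom.quotientKerEquivOfSurjective (comapHom_surjective (V I) (isClosed_V I)))

end Maps

section Card

/-- a ring isomorphism maps atoms to atoms -/
def atomsCongr {R S : Type u} [CommRing R] [CommRing S] (e : R ≃+* S) : atoms R ≃ atoms S where
  toFun a := ⟨e a.1, by
    obtain ⟨h0, h1⟩ := a.2
    refine ⟨fun h => h0 (by simpa using h), fun x => ?_⟩
    rcases h1 (e.symm x) with h | h
    · left
      have := congrArg e h
      simpa using this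
    · right
      have := congrArg e h
      simpa using this⟩
  invFun a := ⟨e.symm a.1, by
    obtain ⟨h0, h1⟩ := a.2
    refine ⟨fun h => h0 (by simpa using h), fun x => ?_⟩
    rcases h1 (e x) with h | h
    · left
      have := congrArg e.symm h
      simpa using this
    · right
      have := congrArg e.symm h
      simpa using this⟩
  left_inv a := by simp
  right_inv a := by simp

variable {X : Type u} [TopologicalSpace X] [CompactSpace X] [T2Space X] [TotallyDisconnectedSpace X]

/-- atoms of the quotient correspond to the isolated points of the closed set -/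
lemma card_atoms_quot (I : Ideal (CR X)) :
    #(atoms (CR X ⧸ I)) = #({x | x ∈ V I ∧ Iso (V I) x} : Set X) := by
  symm
  have hch : ∀ x : ({x | x ∈ V I ∧ Iso (V I) x} : Set X), ∃ a : CR X, ∀ y ∈ V I, (mem y a ↔ y = x.1) :=
    fun x => x.2.2
  choose g hg using hch
  refine Cardinal.mk_congr (Equiv.ofBijective
    (fun x => ⟨Ideal.Quotient.mk I (g x), mk_mem_atoms_iff.2 ⟨x.1, x.2.1, hg x⟩⟩) ⟨?_, ?_⟩)
  · intro x y hxy
    have h1 : Ideal.Quotient.mk I (g x) = Ideal.Quotient.mk I (g y) := congrArg Subtype.val hxy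
    rw [mk_eq_mk_iff] at h1
    have h2 := (h1 x.1 x.2.1).1 ((hg x x.1 x.2.1).2 rfl)
    exact Subtype.ext ((hg y x.1 x.2.1).1 h2)
  · rintro ⟨z, hz⟩
    obtain ⟨a, rfl⟩ := Ideal.Quotient.mk_surjective z
    obtain ⟨x, hxV, hx⟩ := mk_mem_atoms_iff.1 hz
    refine ⟨⟨x, hxV, a, hx⟩, ?_⟩
    apply Subtype.ext
    change Ideal.Quotient.mk I (g _) = Ideal.Quotient.mk I a
    rw [mk_eq_mk_iff]
    intro y hy
    rw [hg _ y hy, hx y hy]

lemma countable_CR (hX : Countable X) : Countable (CR X) := by
  have hsep : ∀ p : {p : X × X // p.1 ≠ p.2}, ∃ a : CR X, mem p.1.1 a ∧ ¬ mem p.1.2 a :=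
    fun p => exists_sep p.2
  choose g hg1 hg2 using hsep
  classical
  let φ : X → ({p : X × X // p.1 ≠ p.2} → Bool) := fun x p => decide (mem x (g p))
  have hφ : Continuous φ := by
    refine continuous_pi fun p => ?_
    rw [continuous_bool_rng true]
    have : (fun x => φ x p) ⁻¹' {true} = {x | mem x (g p)} := by
      ext x; simp [φ]
    rw [this]
    exact isClopen_mem _
  have hinj : Function.Injective φ := by
    intro x y hxy
    by_contra hne
    have h := congrFun hxy ⟨(x, y), hne⟩
    have h1 := hg1 ⟨(x, y), hne⟩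
    have h2 := hg2 ⟨(x, y), hne⟩
    simp only [φ, decide_eq_decide] at h
    exact h2 (h.1 h1)
  have hemb := hφ.isClosedEmbedding hinj
  have : SecondCountableTopology X := hemb.isEmbedding.secondCountableTopology
  have h3 : Countable (Clopens X) := (Clopens.countable_iff_secondCountable).2 this
  exact h3

end Card

section Omega

/-- the space `[0, ω₁]` (in `Type 1`) -/
abbrev Z : Type 1 := Set.Iic (ω₁ : Ordinal.{0})

instance : CompactSpace Z := isCompact_iff_compactSpace.1 (by
  rw [← Set.Icc_bot]; exact isCompact_Icc)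

/-- a copy of `[0, ω₁]` in `Type` -/
abbrev X0 : Type := Shrink.{0} Z

noncomputable def e0 : X0 ≃ₜ Z := (Shrink.homeomorph Z).symm

instance : CompactSpace X0 := e0.symm.compactSpace
instance : T2Space X0 := e0.isEmbedding.t2Space

/-- the value of a point, an ordinal `≤ ω₁` -/
noncomputable def v (x : X0) : Ordinal.{0} := (e0 x).1

lemma v_le (x : X0) : v x ≤ ω₁ := (e0 x).2

lemma v_emb : Topology.IsClosedEmbedding v :=
  isClosed_Iic.isClosedEmbedding_subtypeVal.comp e0.isClosedEmbedding

lemma v_inj {x y : X0} (h : v x = v y) : x = y := v_emb.injective h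

lemma v_cont : Continuous v := v_emb.continuous

lemma exists_v {a : Ordinal.{0}} (h : a ≤ ω₁) : ∃ x : X0, v x = a :=
  ⟨e0.symm ⟨a, h⟩, by simp [v]⟩

lemma clopen_le (a : Ordinal.{0}) : IsClopen {x : X0 | v x ≤ a} := by
  constructor
  · exact isClosed_Iic.preimage v_cont
  · have : {x : X0 | v x ≤ a} = v ⁻¹' Iio (a + 1) := by
      ext x; simp [Order.lt_add_one_iff]
    rw [this]
    exact isOpen_Iio.preimage v_cont

instance : TotallySeparatedSpace X0 := by
  rw [totallySeparatedSpace_iff_exists_isClopen]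
  intro x y hxy
  rcases lt_trichotomy (v x) (v y) with h | h | h
  · exact ⟨_, clopen_le (v x), le_refl (v x), not_le.2 h⟩
  · exact absurd (v_inj h) hxy
  · exact ⟨_, (clopen_le (v y)).compl, not_le.2 h, fun h' => h' (le_refl (v y))⟩

/-- basic neighbourhoods -/
lemma nbhd {U : Set X0} (hU : IsOpen U) {x : X0} (hx : x ∈ U) (h0 : 0 < v x) :
    ∃ η < v x, ∀ y : X0, η < v y → v y ≤ v x → y ∈ U := by
  have h1 : U ∈ nhds x := hU.mem_nhds hx
  rw [v_emb.isInducing.nhds_eq_comap, Filter.mem_comap] at h1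
  obtain ⟨W, hW, hWU⟩ := h1
  obtain ⟨η, hη, h2⟩ := exists_Ioc_subset_of_mem_nhds hW ⟨0, h0⟩
  exact ⟨η, hη, fun y h3 h4 => hWU (h2 ⟨h3, h4⟩)⟩

lemma countable_Iio {a : Ordinal.{0}} (h : a < ω₁) : (Iio a).Countable := by
  rw [← Cardinal.le_aleph0_iff_set_countable, Cardinal.mk_Iio_ordinal]
  rw [Cardinal.lift_le_aleph0]
  have : a.card < ℵ₁ := by
    rw [← Cardinal.ord_aleph, Cardinal.lt_ord] at h
    exact h
  rw [← Cardinal.succ_aleph0] at this
  exact Order.lt_succ_iff.1 this

/-- a closed uncountable subset of `[0,ω₁]` is homeomorphic to `[0,ω₁]` -/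
theorem homeo_of_uncountable {K : Set X0} (hK : IsClosed K) (hunc : ¬ K.Countable) :
    Nonempty (K ≃ₜ X0) := by
  set S : Set Ordinal.{0} := v '' K ∪ Ioi ω₁ with hS
  have hScl : IsClosed S := by
    refine (v_emb.isClosedMap _ hK).union ?_
    have : Ioi (ω₁ : Ordinal.{0}) = Ici (ω₁ + 1) := by
      ext x; simp [Order.add_one_le_iff]
    rw [this]
    exact isClosed_Ici
  have hSb : ¬ BddAbove S := by
    rintro ⟨b, hb⟩
    have h1 : max b ω₁ + 1 ∈ S := Or.inr (by
      have := le_max_right b ω₁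
      exact lt_of_le_of_lt this (lt_add_one _))
    have h2 := hb h1
    exact absurd (lt_of_le_of_lt (le_max_left b ω₁) (lt_add_one _)) (not_lt.2 h2)
  set e := Ordinal.enumOrd S with he
  have hnorm : Order.IsNormal e := (Ordinal.enumOrd_isNormal_iff_isClosed hSb).2 hScl
  have hmono : StrictMono e := Ordinal.enumOrd_strictMono hSb
  have hlt : ∀ b < (ω₁ : Ordinal.{0}), e b < ω₁ := by
    intro b hb
    by_contra hcon
    push Not at hcon
    apply hunc
    have h1 : v '' K ⊆ e '' (Iio b) ∪ {ω₁} := by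
      rintro _ ⟨x, hx, rfl⟩
      rcases lt_or_eq_of_le (v_le x) with h | h
      · left
        have : v x ∈ S := Or.inl ⟨x, hx, rfl⟩
        obtain ⟨c, hc⟩ := Ordinal.enumOrd_surjective hSb this
        refine ⟨c, ?_, hc⟩
        have : e c < e b := by
          rw [he, hc]
          exact lt_of_lt_of_le h hcon
        exact hmono.lt_iff_lt.1 this
      · right; exact h
    have h2 : (v '' K).Countable :=
      (((countable_Iio hb).image e).union (countable_singleton _)).mono h1
    exact Set.countable_of_injective_of_countable_image v_emb.injective.injOn h2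
  have hom : e ω₁ = ω₁ := by
    apply le_antisymm
    · rw [hnorm.le_iff_forall_le (Cardinal.isSuccLimit_omega 1)]
      exact fun b hb => (hlt b hb).le
    · exact hmono.le_apply
  have hmem : ∀ x : X0, e (v x) ∈ v '' K := by
    intro x
    have h1 : e (v x) ∈ S := Ordinal.enumOrd_mem hSb _
    rcases h1 with h1 | h1
    · exact h1
    · exact absurd (lt_of_lt_of_le h1 ((hmono.monotone (v_le x)).trans_eq hom)) (lt_irrefl _)
  let g : X0 → (v '' K : Set Ordinal.{0}) := fun x => ⟨e (v x), hmem x⟩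
  have hg : Continuous g := by
    refine Continuous.subtype_mk ?_ _
    exact hnorm.continuous.comp v_cont
  have hbij : Function.Bijective g := by
    constructor
    · intro x y hxy
      exact v_inj (hmono.injective (congrArg Subtype.val hxy))
    · rintro ⟨a, ha⟩
      have : a ∈ S := Or.inl ha
      obtain ⟨c, hc⟩ := Ordinal.enumOrd_surjective hSb this
      have hc1 : c ≤ ω₁ := by
        have h1 : c ≤ e c := hmono.le_apply
        have h2 : e c ≤ ω₁ := by
          rw [he, hc]
          obtain ⟨x, _, rfl⟩ := ha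
          exact v_le x
        exact h1.trans h2
      obtain ⟨x, hx⟩ := exists_v hc1
      refine ⟨x, Subtype.ext ?_⟩
      change e (v x) = a
      rw [hx, he, hc]
  have h1 : K ≃ₜ (v '' K : Set Ordinal.{0}) := v_emb.isEmbedding.homeomorphImage K
  have hT2 : T2Space (v '' K : Set Ordinal.{0}) := inferInstance
  exact ⟨h1.trans (Continuous.homeoOfEquivCompactToT2 (f := Equiv.ofBijective g hbij) hg).symm⟩

lemma uncountable_of_unbounded {K : Set X0}
    (h : ∀ ξ < (ω₁ : Ordinal.{0}), ∃ x ∈ K, ξ < v x ∧ v x < ω₁) : ¬ K.Countable := by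
  intro hc
  have hc' : Countable ({x : X0 | x ∈ K ∧ v x < ω₁} : Set X0) :=
    (hc.mono fun x hx => hx.1).to_subtype
  have h1 := Ordinal.iSup_lt_omega_one
    (f := fun x : ({x : X0 | x ∈ K ∧ v x < ω₁} : Set X0) => v x.1) (fun x => x.2.2)
  obtain ⟨x, hx, h2, h3⟩ := h _ h1
  have h4 : v x ≤ ⨆ x : ({x : X0 | x ∈ K ∧ v x < ω₁} : Set X0), v x.1 :=
    le_ciSup (f := fun x : ({x : X0 | x ∈ K ∧ v x < ω₁} : Set X0) => v x.1)
      Ordinal.bddAbove_of_small ⟨x, hx, h3⟩
  exact absurd h2 (not_lt.2 h4)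

/-- intersections of countably many closed unbounded sets -/
lemma club (C : ℕ → Set X0) (hC : ∀ n, IsClosed (C n))
    (hu : ∀ n, ∀ ξ < (ω₁ : Ordinal.{0}), ∃ x ∈ C n, ξ < v x ∧ v x < ω₁)
    (ξ : Ordinal.{0}) (hξ : ξ < ω₁) :
    ∃ x : X0, ξ < v x ∧ v x < ω₁ ∧ ∀ n, x ∈ C n ∧ ∀ η < v x, ∃ y ∈ C n, η < v y ∧ v y < v x := by
  choose! f hf1 hf2 hf3 using hu
  let t : ℕ → Ordinal.{0} := fun n => Nat.rec ξ (fun k a => v (f (Nat.unpair k).1 a)) n
  have t0 : t 0 = ξ := rfl
  have ts : ∀ k, t (k + 1) = v (f (Nat.unpair k).1 (t k)) := fun k => rfl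
  have tlt : ∀ k, t k < ω₁ := by
    intro k
    induction k with
    | zero => exact hξ
    | succ k ih => rw [ts]; exact hf3 _ _ ih
  have tmono : StrictMono t := strictMono_nat_of_lt_succ fun k => by
    rw [ts]; exact hf2 _ _ (tlt k)
  have hsup : (⨆ k, t k) < ω₁ := Ordinal.iSup_lt_omega_one tlt
  have hlt : ∀ k, t k < ⨆ k, t k := fun k =>
    lt_of_lt_of_le (tmono (Nat.lt_succ_self k)) (le_ciSup Ordinal.bddAbove_of_small (k + 1))
  obtain ⟨x, hx⟩ := exists_v hsup.le
  refine ⟨x, ?_, by rw [hx]; exact hsup, fun n => ?_⟩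
  · rw [hx]; exact hlt 0
  · have key : ∀ η < v x, ∃ y ∈ C n, η < v y ∧ v y < v x := by
      intro η hη
      rw [hx] at hη
      obtain ⟨k, hk⟩ := exists_lt_of_lt_ciSup hη
      have h1 : k ≤ Nat.pair n k := Nat.right_le_pair n k
      refine ⟨f n (t (Nat.pair n k)), hf1 _ _ (tlt _), ?_, ?_⟩
      · exact lt_trans (lt_of_lt_of_le hk (tmono.monotone h1)) (hf2 _ _ (tlt _))
      · rw [hx]
        have h2 := hlt (Nat.pair n k + 1)
        rw [ts, Nat.unpair_pair] at h2
        exact h2
    refine ⟨?_, key⟩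
    by_contra hcon
    have hpos : 0 < v x := by
      rw [hx]; exact lt_of_le_of_lt (zero_le) (hlt 0)
    obtain ⟨η, hη, h2⟩ := nbhd (hC n).isOpen_compl hcon hpos
    obtain ⟨y, hy, h3, h4⟩ := key η hη
    exact h2 y h3 h4.le hy

lemma sep_mem {K : Set X0} {x : X0} (hx : x ∈ der K) (η : Ordinal.{0}) (hη : η < v x) :
    ∃ y ∈ K, η < v y ∧ v y < v x := by
  by_contra hcon
  push Not at hcon
  apply hx.2
  have hcl : IsClopen ({y : X0 | v y ≤ v x} ∩ {y : X0 | v y ≤ η}ᶜ) :=
    (clopen_le (v x)).inter (clopen_le η).compl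
  refine ⟨mkC _ hcl, fun y hy => ?_⟩
  rw [mem_mkC]
  constructor
  · rintro ⟨h1, h2⟩
    have h3 : η < v y := not_le.1 h2
    have h4 := hcon y hy h3
    exact v_inj (le_antisymm h1 h4)
  · intro h
    subst h
    exact ⟨le_refl (v y), not_le.2 hη⟩

lemma mem_der_of {K : Set X0} {x : X0} (hx : x ∈ K) (h0 : 0 < v x)
    (h : ∀ η < v x, ∃ y ∈ K, η < v y ∧ v y < v x) : x ∈ der K := by
  refine ⟨hx, ?_⟩
  rintro ⟨a, ha⟩
  have hxa : mem x a := (ha x hx).2 rfl
  obtain ⟨η, hη, h2⟩ := nbhd (isClopen_mem a).isOpen hxa h0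
  obtain ⟨y, hy, h3, h4⟩ := h η hη
  have := (ha y hy).1 (h2 y h3 h4.le)
  rw [this] at h4
  exact lt_irrefl _ h4

/-- the Cantor-Bendixson derivatives of `[0, ω₁]` -/
noncomputable def D (β : Ordinal.{0}) : Set X0 := V (cbIdeal (CR X0) β)

lemma D_zero : D 0 = Set.univ := by
  rw [D, cbIdeal, Ordinal.limitRecOn_zero, V_bot]

lemma D_succ (β : Ordinal.{0}) : D (β + 1) = der (D β) := by
  rw [D, cbIdeal, Ordinal.limitRecOn_add_one, V_nextIdeal]
  rfl

lemma D_limit (β : Ordinal.{0}) (h : Order.IsSuccLimit β) : D β = ⋂ γ : Set.Iio β, D γ.1 := by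
  rw [D, cbIdeal, Ordinal.limitRecOn_limit _ _ _ _ h, V_iSup]
  rfl

lemma isClosed_D (β : Ordinal.{0}) : IsClosed (D β) := isClosed_V _

lemma le_of_mem_D (β : Ordinal.{0}) : ∀ x ∈ D β, β ≤ v x := by
  induction β using Ordinal.limitRecOn with
  | zero => exact fun x _ => zero_le
  | add_one β ih =>
    intro x hx
    rw [D_succ] at hx
    by_cases h0 : v x = 0
    · exfalso
      have h1 := ih x hx.1
      apply hx.2
      refine ⟨mkC _ (clopen_le 0), fun y hy => ?_⟩
      rw [mem_mkC]
      constructor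
      · intro h2
        apply v_inj
        rw [h0]
        exact le_antisymm h2 zero_le
      · rintro rfl
        exact h0.le
    · obtain ⟨y, hy, _, h2⟩ := sep_mem hx 0 (pos_iff_ne_zero.2 h0)
      exact Order.add_one_le_of_lt (lt_of_le_of_lt (ih y hy) h2)
  | limit β hβ ih =>
    intro x hx
    rw [D_limit β hβ] at hx
    apply le_of_forall_lt
    intro γ hγ
    have h1 : γ + 1 < β := hβ.add_one_lt hγ
    have h2 := ih (γ + 1) h1 x (mem_iInter.1 hx ⟨γ + 1, h1⟩)
    exact lt_of_lt_of_le (lt_add_one γ) h2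

lemma unbounded_D (β : Ordinal.{0}) : β < ω₁ →
    ∀ ξ < (ω₁ : Ordinal.{0}), ∃ x ∈ D β, ξ < v x ∧ v x < ω₁ := by
  induction β using Ordinal.limitRecOn with
  | zero =>
    intro _ ξ hξ
    have h1 : ξ + 1 < ω₁ := (Cardinal.isSuccLimit_omega 1).add_one_lt hξ
    obtain ⟨x, hx⟩ := exists_v h1.le
    refine ⟨x, by rw [D_zero]; trivial, ?_, ?_⟩
    · rw [hx]; exact lt_add_one ξ
    · rw [hx]; exact h1
  | add_one β ih =>
    intro hβ ξ hξ
    have hβ' : β < ω₁ := lt_trans (lt_add_one β) hβ
    obtain ⟨x, h1, h2, h3⟩ := club (fun _ => D β) (fun _ => isClosed_D β) (fun _ => ih hβ') ξ hξ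
    refine ⟨x, ?_, h1, h2⟩
    rw [D_succ]
    exact mem_der_of (h3 0).1 (lt_of_le_of_lt zero_le h1) (h3 0).2
  | limit β hβ ih =>
    intro hβ1 ξ hξ
    have hc : Countable (Iio β) := (countable_Iio hβ1).to_subtype
    have hne : Nonempty (Iio β) := ⟨⟨0, hβ.bot_lt⟩⟩
    obtain ⟨g, hg⟩ := exists_surjective_nat (Iio β)
    obtain ⟨x, h1, h2, h3⟩ := club (fun n => D (g n).1) (fun n => isClosed_D _)
      (fun n => ih _ (g n).2 (lt_trans (g n).2 hβ1)) ξ hξ
    refine ⟨x, ?_, h1, h2⟩
    rw [D_limit β hβ, mem_iInter]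
    intro γ
    obtain ⟨n, rfl⟩ := hg γ
    exact (h3 n).1

lemma top_mem_D (β : Ordinal.{0}) (hβ : β < ω₁) {x : X0} (hx : v x = ω₁) : x ∈ D β := by
  by_contra hcon
  obtain ⟨η, hη, h2⟩ := nbhd (isClosed_D β).isOpen_compl hcon
    (by rw [hx]; exact Ordinal.omega_pos 1)
  rw [hx] at hη
  obtain ⟨y, hy, h3, h4⟩ := unbounded_D β hβ η hη
  exact h2 y h3 (by rw [hx]; exact h4.le) hy

lemma D_omega_one : ∃ x : X0, D ω₁ = {x} := by
  obtain ⟨x, hx⟩ := exists_v (le_refl (ω₁ : Ordinal.{0}))
  refine ⟨x, ?_⟩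
  ext y
  constructor
  · intro hy
    have := le_of_mem_D _ y hy
    exact v_inj (by rw [hx]; exact le_antisymm (v_le y) this)
  · rintro rfl
    rw [D_limit _ (Cardinal.isSuccLimit_omega 1), mem_iInter]
    rintro ⟨γ, hγ⟩
    exact top_mem_D γ hγ hx

end Omega

section Final

theorem propertyP : PropertyP (Clopens X0) := by
  intro J hJ
  have h1 : ¬ (V J).Countable := by
    intro hc
    have h2 : Countable (V J) := hc.to_subtype
    have : CompactSpace (V J) := isCompact_iff_compactSpace.1 (isClosed_V J).isCompact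
    have h3 : Countable (CR (V J)) := countable_CR h2
    have h4 : Countable (CR X0 ⧸ J) := (quotEquiv J).injective.countable
    exact not_countable h4
  obtain ⟨h⟩ := homeo_of_uncountable (isClosed_V J) h1
  exact ⟨(quotEquiv J).trans (congrHomeo h).symm⟩

lemma card_X0_le : #X0 ≤ ℵ₁ := by
  have h1 : Cardinal.lift.{1} #X0 = Cardinal.lift.{0} #Z := Cardinal.lift_mk_eq'.2 ⟨e0.toEquiv⟩
  have h2 : (Set.Iic (ω₁ : Ordinal.{0})) = Set.Iio (ω₁ + 1) := by
    ext x; simp [Order.lt_add_one_iff]
  have h3 : #Z = Cardinal.lift.{1} (ℵ₁ : Cardinal.{0}) := by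
    rw [Z, h2, Cardinal.mk_Iio_ordinal]
    congr 1
    rw [Ordinal.card_add, Ordinal.card_one, Ordinal.card_omega]
    exact Cardinal.add_one_eq (Cardinal.aleph0_le_aleph 1)
  rw [h3, Cardinal.lift_uzero] at h1
  exact (Cardinal.lift_injective h1).le

lemma card_iso : #({x | x ∈ V (⊥ : Ideal (CR X0)) ∧ Iso (V (⊥ : Ideal (CR X0))) x} : Set X0) = ℵ₁ := by
  apply le_antisymm
  · exact (Cardinal.mk_set_le _).trans card_X0_le
  · have hch : ∀ β : Iio (ω₁ : Ordinal.{0}), ∃ x : X0, v x = β.1 + 1 :=
      fun β => exists_v ((Cardinal.isSuccLimit_omega 1).add_one_lt β.2).le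
    choose g hg using hch
    have hiso : ∀ β, g β ∈ {x | x ∈ V (⊥ : Ideal (CR X0)) ∧ Iso (V (⊥ : Ideal (CR X0))) x} := by
      intro β
      refine ⟨by rw [V_bot]; trivial, ?_⟩
      refine ⟨mkC _ ((clopen_le (β.1 + 1)).inter (clopen_le β.1).compl), fun y _ => ?_⟩
      rw [mem_mkC]
      constructor
      · rintro ⟨h1, h2⟩
        apply v_inj
        rw [hg]
        exact le_antisymm h1 (Order.add_one_le_of_lt (not_le.1 h2))
      · intro h
        subst h
        refine ⟨(hg β).le, ?_⟩
        simp only [mem_compl_iff, mem_ofPred_eq, hg, not_le]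
        exact lt_add_one _
    have h1 := Cardinal.lift_mk_le_lift_mk_of_injective
      (f := fun β : Iio (ω₁ : Ordinal.{0}) =>
        (⟨g β, hiso β⟩ : ({x | x ∈ V (⊥ : Ideal (CR X0)) ∧ Iso (V (⊥ : Ideal (CR X0))) x} : Set X0)))
      (by
        intro a b hab
        have h2 : g a = g b := congrArg Subtype.val hab
        have h3 : a.1 + 1 = b.1 + 1 := by rw [← hg, ← hg, h2]
        exact Subtype.ext (by simpa using h3))
    rw [Cardinal.mk_Iio_ordinal, Ordinal.card_omega, Cardinal.lift_uzero] at h1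
    exact Cardinal.lift_le.1 h1

lemma uncountable_CR_X0 : Uncountable (CR X0) := by
  by_contra hcon
  rw [not_uncountable_iff] at hcon
  have h1 : Countable (CR X0 ⧸ (⊥ : Ideal (CR X0))) :=
    (Ideal.Quotient.mk_surjective).countable
  have h2 : Countable (atoms (CR X0 ⧸ (⊥ : Ideal (CR X0)))) := inferInstance
  have h3 := Cardinal.mk_le_aleph0_iff.2 h2
  rw [card_atoms_quot, card_iso] at h3
  exact absurd h3 (not_le.2 Cardinal.aleph0_lt_aleph_one)

theorem hasCardinalSequence : HasCardinalSequence (Clopens X0) ℵ₁ ω₁ := by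
  have hunc : ∀ β < (ω₁ : Ordinal.{0}), Uncountable (CR X0 ⧸ cbIdeal (CR X0) β) := by
    intro β hβ
    obtain ⟨h⟩ := homeo_of_uncountable (isClosed_D β) (uncountable_of_unbounded (unbounded_D β hβ))
    have h1 := uncountable_CR_X0
    exact ((quotEquiv (cbIdeal (CR X0) β)).trans (congrHomeo h).symm).symm.injective.uncountable
  obtain ⟨x, hx⟩ := D_omega_one
  have hx' : V (cbIdeal (CR X0) ω₁) = {x} := hx
  refine ⟨⟨ω₁ + 1, ?_⟩, ?_, ?_, ?_, ?_⟩
  · rw [Ideal.eq_top_iff_one, mem_ideal_iff]
    intro y hy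
    exfalso
    have h1 : y ∈ D (ω₁ + 1) := hy
    rw [D_succ, hx] at h1
    apply h1.2
    refine ⟨1, fun z hz => ?_⟩
    have h2 : y = x := h1.1
    have h3 : z = x := hz
    exact iff_of_true (mem_one z) (by rw [h2, h3])
  · have : ∀ z : CR X0 ⧸ cbIdeal (CR X0) ω₁, z = 0 ∨ z = 1 := by
      intro z
      obtain ⟨a, rfl⟩ := Ideal.Quotient.mk_surjective z
      by_cases h : mem x a
      · right
        rw [← map_one (Ideal.Quotient.mk _), mk_eq_mk_iff, hx']
        rintro y rfl
        exact iff_of_true h (mem_one _)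
      · left
        rw [← map_zero (Ideal.Quotient.mk _), mk_eq_mk_iff, hx']
        rintro y rfl
        exact iff_of_false h (mem_zero _)
    have h2 : (Set.univ : Set (CR X0 ⧸ cbIdeal (CR X0) ω₁)) ⊆ {0, 1} := fun z _ => this z
    exact Set.finite_univ_iff.1 ((Set.toFinite _).subset h2)
  · intro β hβ
    have := hunc β hβ
    infer_instance
  · intro β hβ
    obtain ⟨f⟩ := propertyP (cbIdeal (CR X0) β) (hunc β hβ)
    have h1 : (CR X0 ⧸ (⊥ : Ideal (CR X0))) ≃+* CR X0 := (RingEquiv.quotientBot (CR X0))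
    have h2 := Cardinal.mk_congr (atomsCongr (f.trans h1.symm))
    exact h2.trans ((card_atoms_quot _).trans card_iso)
  · refine (card_atoms_quot _).trans ?_
    rw [hx']
    have : ({y | y ∈ ({x} : Set X0) ∧ Iso {x} y} : Set X0) = {x} := by
      ext y
      constructor
      · exact fun h => h.1
      · rintro rfl
        exact ⟨rfl, 1, fun z hz => iff_of_true (mem_one z) hz⟩
    rw [this]
    exact Cardinal.mk_singleton x

/-- **Question 1 (yes).** There is a Boolean algebra with property (P) whose cardinal sequence is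
`⟨ℵ₁, ℵ₁, …, 1⟩` of length `ω₁`. -/
theorem result : ∃ (B : Type) (_ : BooleanAlgebra B), PropertyP B ∧ HasCardinalSequence B ℵ₁ ω₁ :=
  ⟨Clopens X0, inferInstance, propertyP, hasCardinalSequence⟩

end Final

end Pool.Agent.Results.MP_0eabd7_lc.OmegaOneExists
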